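import Pool.Agent.helper25.EN.Spec

/-!
# ENT: the entropy theorem for algorithms in rounds
-/

set_option autoImplicit false

namespace EN

open Finset Real

open Classical in
/-- The statement of `ENT` for given `j` and constant. -/
def ENT_at (j : ℕ) (C : ℝ) : Prop :=
  ∀ (m : ℕ) (κ : Type) (T : Finset κ) (S : κ → ℕ → Om m → Finset (Fin m)) (Λ : Finset (Fin m)) (z : Fin m) (N : ℝ), (∀ τ ∈ T, Rounds (S τ)) →
  (∀ i : ℕ, ∀ v ∈ insert z Λ, ∑ τ ∈ T, (#{x : Om m | v ∈ S τ i x} : ℝ) / 2 ^ m ≤ N) →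
  ∀ (Q : Om m → ℝ) (L : ℝ), Law Q → (∀ x y : Om m, (∀ u ∈ Λ, x u = y u) → Q x = Q y) → 0 ≤ L → (∀ x, Q x ≤ exp L / 2 ^ m) →
  ∀ v ∈ insert z Λ, ∑ τ ∈ T, ∑ x with v ∈ S τ (j + 1) x, Q x ≤ C * N * (L + log (#Λ + 3)) ^ j

theorem ENT_log3 (n : ℕ) : 1 ≤ log ((n : ℝ) + 3) := by
  rw [Real.le_log_iff_exp_le (by positivity)]
  have h1 := Real.exp_one_lt_d9
  have h2 : (0 : ℝ) ≤ n := Nat.cast_nonneg n
  linarith

theorem ENT_phi_half : phi (1 / 2) = 0 := by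
  unfold phi
  norm_num

theorem ENT_pa {m : ℕ} (u : Fin m) : u ∉ pa u := by
  simp [pa]

theorem ENT_psi (acp : ACP_stmt) (inq : INQ_stmt) {m : ℕ} (Q : Om m → ℝ) (hQ : Law Q)
    (u : Fin m) (x : Om m) : 0 ≤ phi (a Q (pa u) u x) ∧ phi (a Q (pa u) u x) ≤ 1 := by
  obtain ⟨-, -, -, -, -, -, h⟩ := acp m Q hQ (pa u) u x
  obtain ⟨-, h0, h1, -⟩ := h (ENT_pa u)
  obtain ⟨-, h2, h3, -⟩ := inq (a Q (pa u) u x) (a Q (pa u) u x) h0 h1 h0 h1 id id
  exact ⟨h2, h3⟩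

theorem ENT_out (acp : ACP_stmt) (loc : LOC_stmt) {m : ℕ} (Q : Om m → ℝ) (hQ : Law Q)
    (Λ : Finset (Fin m)) (hΛ : ∀ x y : Om m, (∀ u ∈ Λ, x u = y u) → Q x = Q y) (u : Fin m)
    (hu : u ∉ Λ) (x : Om m) : Q x * phi (a Q (pa u) u x) = 0 := by
  by_cases h : Q x = 0
  · rw [h, zero_mul]
  · have h1 : 0 < Q x := lt_of_le_of_ne (hQ.1 x) (Ne.symm h)
    obtain ⟨-, h2, -⟩ := acp m Q hQ (pa u) u x
    have h3 := (loc m Q Λ hΛ (pa u)).2 u hu (ENT_pa u) x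
    have h4 : a Q (pa u) u x = 1 / 2 := by
      unfold a
      rw [h3]
      have h5 : w Q (pa u) x ≠ 0 := (lt_of_lt_of_le h1 h2).ne'
      field_simp
    rw [h4, ENT_phi_half, mul_zero]

theorem ENT_dep (loc : LOC_stmt) {m : ℕ} (Q : Om m → ℝ)
    (Λ : Finset (Fin m)) (hΛ : ∀ x y : Om m, (∀ u ∈ Λ, x u = y u) → Q x = Q y) (u : Fin m)
    (x y : Om m) (h : ∀ v ∈ Λ, x v = y v) :
    Q x * phi (a Q (pa u) u x) = Q y * phi (a Q (pa u) u y) := by
  unfold a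
  rw [hΛ x y h, (loc m Q Λ hΛ (pa u)).1 x y h, (loc m Q Λ hΛ (insert u (pa u))).1 x y h]

theorem ENT_adp {m : ℕ} (S : ℕ → Om m → Finset (Fin m)) (hS : Rounds S) (j : ℕ) :
    Adp (S (j + 1)) := by
  intro x y h
  exact (hS.2 j x).2 y (fun u hu => h u ((hS.2 j x).1 hu))

open Classical in
theorem ENT_X {m : ℕ} (Q : Om m → ℝ) (S : Om m → Finset (Fin m)) :
    X Q S = ∑ u : Fin m, ∑ x with u ∈ S x, Q x * phi (a Q (pa u) u x) := by
  unfold X
  have h1 : ∀ u : Fin m, ∑ x with u ∈ S x, Q x * phi (a Q (pa u) u x) =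
      ∑ x : Om m, if u ∈ S x then Q x * phi (a Q (pa u) u x) else 0 := fun u => sum_filter _ _
  simp only [h1]
  rw [sum_comm]
  refine sum_congr rfl fun x _ => ?_
  rw [mul_sum, sum_ite_mem, univ_inter]

open Classical in
theorem ENT_base : ENT_at 0 1 := by
  intro m κ T S Λ z N hR hN Q L hQ hΛ hL hQL v hv
  rw [pow_zero, mul_one, one_mul]
  refine le_trans (sum_le_sum ?_) (hN 1 v hv)
  intro τ hτ
  have h0 : ∀ x y : Om m, S τ 1 y = S τ 1 x := by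
    intro x y
    refine ((hR τ hτ).2 0 x).2 y ?_
    intro u hu
    rw [(hR τ hτ).1 x] at hu
    exact absurd hu (notMem_empty u)
  obtain ⟨x0⟩ : Nonempty (Om m) := inferInstance
  by_cases hv0 : v ∈ S τ 1 x0
  · have h1 : (univ.filter fun x : Om m => v ∈ S τ (0 + 1) x) = univ := by
      ext x
      simp only [mem_filter, mem_univ, true_and, iff_true]
      have h2 := h0 x0 x
      rw [zero_add, h2]
      exact hv0
    rw [h1, hQ.2]
    have h4 : (#(univ : Finset (Om m)) : ℝ) = 2 ^ m := by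
      rw [card_univ]
      simp
    rw [h4, div_self (by positivity)]
  · have h1 : (univ.filter fun x : Om m => v ∈ S τ (0 + 1) x) = ∅ := by
      ext x
      simp only [mem_filter, mem_univ, true_and, notMem_empty, iff_false]
      have h2 := h0 x0 x
      rw [zero_add, h2]
      exact hv0
    rw [h1, sum_empty]
    positivity

open Classical in
theorem ENT_term (acp : ACP_stmt) (inq : INQ_stmt) (loc : LOC_stmt) (j : ℕ) (C : ℝ)
    (ih : ENT_at j C) {m : ℕ} {κ : Type} (T : Finset κ) (S : κ → ℕ → Om m → Finset (Fin m))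
    (Λ : Finset (Fin m)) (z : Fin m) (N : ℝ) (hR : ∀ τ ∈ T, Rounds (S τ))
    (hN : ∀ i : ℕ, ∀ v ∈ insert z Λ, ∑ τ ∈ T, (#{x : Om m | v ∈ S τ i x} : ℝ) / 2 ^ m ≤ N)
    (Q : Om m → ℝ) (L : ℝ) (hQ : Law Q)
    (hΛ : ∀ x y : Om m, (∀ u ∈ Λ, x u = y u) → Q x = Q y) (hL : 0 ≤ L)
    (hQL : ∀ x, Q x ≤ exp L / 2 ^ m) (u : Fin m) (hu : u ∈ Λ) (n : ℝ)
    (hn : n = ∑ x, Q x * phi (a Q (pa u) u x)) (hn0 : 0 < n) (hn1 : n ≤ 1) :
    ∑ τ ∈ T, ∑ x with u ∈ S τ (j + 1) x, Q x * phi (a Q (pa u) u x) ≤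
      C * N * (n * (L + log (#Λ + 3) + log (1 / n)) ^ j) := by
  have hlog : 0 ≤ log (1 / n) := by
    apply log_nonneg
    rw [le_div_iff₀ hn0, one_mul]
    exact hn1
  have hW0 : ∀ x, 0 ≤ Q x * phi (a Q (pa u) u x) := fun x =>
    mul_nonneg (hQ.1 x) (ENT_psi acp inq Q hQ u x).1
  have h1 := ih m κ T S Λ z N hR hN (fun x => Q x * phi (a Q (pa u) u x) / n) (L + log (1 / n))
    ⟨fun x => div_nonneg (hW0 x) hn0.le, by
      rw [← sum_div, ← hn, div_self hn0.ne']⟩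
    (by
      intro x y h
      show Q x * phi (a Q (pa u) u x) / n = Q y * phi (a Q (pa u) u y) / n
      rw [ENT_dep loc Q Λ hΛ u x y h])
    (by linarith)
    (by
      intro x
      show Q x * phi (a Q (pa u) u x) / n ≤ exp (L + log (1 / n)) / 2 ^ m
      rw [exp_add, exp_log (by positivity)]
      have h2 : Q x * phi (a Q (pa u) u x) ≤ exp L / 2 ^ m := by
        refine le_trans ?_ (hQL x)
        exact mul_le_of_le_one_right (hQ.1 x) (ENT_psi acp inq Q hQ u x).2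
      have h3 : exp L * (1 / n) / 2 ^ m = exp L / 2 ^ m / n := by
        ring
      rw [h3]
      exact div_le_div_of_nonneg_right h2 hn0.le)
    u (mem_insert_of_mem hu)
  have h2 : ∑ τ ∈ T, ∑ x with u ∈ S τ (j + 1) x, Q x * phi (a Q (pa u) u x) / n =
      (∑ τ ∈ T, ∑ x with u ∈ S τ (j + 1) x, Q x * phi (a Q (pa u) u x)) / n := by
    rw [sum_div]
    refine sum_congr rfl fun τ _ => ?_
    rw [sum_div]
  have h3 : (∑ τ ∈ T, ∑ x with u ∈ S τ (j + 1) x, Q x * phi (a Q (pa u) u x)) / n ≤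
      C * N * (L + log (1 / n) + log (#Λ + 3)) ^ j := by
    rw [← h2]
    exact h1
  rw [div_le_iff₀ hn0] at h3
  have h4 : L + log (1 / n) + log ((#Λ : ℝ) + 3) = L + log ((#Λ : ℝ) + 3) + log (1 / n) := by
    ring
  rw [h4] at h3
  refine h3.trans (le_of_eq ?_)
  ring

open Classical in
theorem ENT_step (acp : ACP_stmt) (inq : INQ_stmt) (yng : YNG_stmt) (mai : MAI_stmt)
    (klq : KLQ_stmt) (loc : LOC_stmt) (j : ℕ) (C C' : ℝ) (hC : 0 < C) (hC' : 0 < C')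
    (ih : ENT_at j C)
    (sml : ∀ (ι : Type) (s : Finset ι) (n : ι → ℝ) (L A : ℝ), (∀ u ∈ s, 0 < n u ∧ n u ≤ 1) →
      ∑ u ∈ s, n u ≤ L → 1 ≤ A → log (#s + 3) ≤ A →
      ∑ u ∈ s, n u * (A + log (1 / n u)) ^ j ≤ C' * (L + 1) * A ^ j) :
    ENT_at (j + 1) (17 ^ (j + 1) * C * C' + 2) := by
  intro m κ T S Λ z N hR hN Q L hQ hΛ hL hQL v hv
  obtain ⟨A, hA⟩ : ∃ A : ℝ, A = L + log ((#Λ : ℝ) + 3) := ⟨_, rfl⟩
  have hl3 := ENT_log3 (#Λ)
  have hA1 : 1 ≤ A := by linarith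
  have hLA : L + 1 ≤ A := by linarith
  have hN0 : 0 ≤ N := by
    refine le_trans (sum_nonneg ?_) (hN 0 v hv)
    intro τ _
    positivity
  have h1 : ∀ τ ∈ T, ∑ x with v ∈ S τ (j + 1 + 1) x, Q x ≤ 17 ^ (j + 1) * X Q (S τ (j + 1)) +
      2 * ((#{x : Om m | v ∈ S τ (j + 1 + 1) x} : ℝ) / 2 ^ m) := by
    intro τ hτ
    have h2 := (yng m Q hQ (S τ (j + 1)) (ENT_adp (S τ) (hR τ hτ) j)).2
      (univ.filter fun x => v ∈ S τ (j + 1 + 1) x) (by
      intro x hx y hy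
      rw [mem_filter] at hx ⊢
      refine ⟨mem_univ _, ?_⟩
      rw [((hR τ hτ).2 (j + 1) x).2 y hy]
      exact hx.2)
    have h3 := mai m Q hQ (S τ) (hR τ hτ) (j + 1)
    rw [mul_div_assoc] at h2
    linarith
  have h2 := sum_le_sum h1
  rw [sum_add_distrib, ← mul_sum, ← mul_sum] at h2
  have h3 := hN (j + 1 + 1) v hv
  have hW0 : ∀ u x, 0 ≤ Q x * phi (a Q (pa u) u x) := fun u x =>
    mul_nonneg (hQ.1 x) (ENT_psi acp inq Q hQ u x).1
  obtain ⟨n, hn⟩ : ∃ n : Fin m → ℝ, ∀ u, n u = ∑ x, Q x * phi (a Q (pa u) u x) :=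
    ⟨_, fun u => rfl⟩
  have hn0 : ∀ u, 0 ≤ n u := by
    intro u
    rw [hn]
    exact sum_nonneg fun x _ => hW0 u x
  have hn1 : ∀ u, n u ≤ 1 := by
    intro u
    rw [hn, ← hQ.2]
    refine sum_le_sum fun x _ => ?_
    exact mul_le_of_le_one_right (hQ.1 x) (ENT_psi acp inq Q hQ u x).2
  obtain ⟨t, ht⟩ : ∃ t : Fin m → ℝ, ∀ u, t u =
      ∑ τ ∈ T, ∑ x with u ∈ S τ (j + 1) x, Q x * phi (a Q (pa u) u x) := ⟨_, fun u => rfl⟩
  have h4 : ∑ τ ∈ T, X Q (S τ (j + 1)) = ∑ u, t u := by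
    simp only [ht]
    rw [sum_comm]
    exact sum_congr rfl fun τ _ => ENT_X Q (S τ (j + 1))
  obtain ⟨Λ', hΛ'⟩ : ∃ Λ' : Finset (Fin m), Λ' = Λ.filter fun u => 0 < n u := ⟨_, rfl⟩
  have h5 : ∑ u ∈ Λ', t u = ∑ u, t u := by
    refine sum_subset (subset_univ _) ?_
    intro u _ hu
    rw [ht]
    refine sum_eq_zero fun τ _ => sum_eq_zero fun x _ => ?_
    by_cases h6 : u ∈ Λ
    · have h7 : ¬ 0 < n u := by
        intro h8
        apply hu
        rw [hΛ', mem_filter]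
        exact ⟨h6, h8⟩
      have h8 : n u = 0 := le_antisymm (not_lt.1 h7) (hn0 u)
      rw [hn] at h8
      exact (sum_eq_zero_iff_of_nonneg (fun x _ => hW0 u x)).1 h8 x (mem_univ x)
    · exact ENT_out acp loc Q hQ Λ hΛ u h6 x
  have h6 : ∑ u ∈ Λ', t u ≤ ∑ u ∈ Λ', C * N * (n u * (A + log (1 / n u)) ^ j) := by
    refine sum_le_sum ?_
    intro u hu
    rw [hΛ', mem_filter] at hu
    rw [ht, hA]
    exact ENT_term acp inq loc j C ih T S Λ z N hR hN Q L hQ hΛ hL hQL u hu.1 (n u) (hn u) hu.2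
      (hn1 u)
  rw [← mul_sum] at h6
  have h7 := sml (Fin m) Λ' n L A (by
      intro u hu
      rw [hΛ', mem_filter] at hu
      exact ⟨hu.2, hn1 u⟩) (by
      refine le_trans ?_ (klq m Q hQ L hQL)
      have h8 : ∑ v : Fin m, ∑ x, Q x * phi (a Q (pa v) v x) = ∑ v, n v :=
        sum_congr rfl fun v _ => (hn v).symm
      rw [h8]
      exact sum_le_sum_of_subset_of_nonneg (subset_univ _) (fun u _ _ => hn0 u)) hA1 (by
      have h8 : log ((#Λ' : ℝ) + 3) ≤ log ((#Λ : ℝ) + 3) := by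
        apply log_le_log (by positivity)
        have h9 : #Λ' ≤ #Λ := by
          rw [hΛ']
          exact card_filter_le _ _
        have h10 : (#Λ' : ℝ) ≤ #Λ := by exact_mod_cast h9
        linarith
      linarith)
  have hCN : 0 ≤ C * N := mul_nonneg hC.le hN0
  have hAj : 0 ≤ A ^ j := pow_nonneg (by linarith) j
  have h8 : C' * (L + 1) * A ^ j ≤ C' * A ^ (j + 1) := by
    have h9 : C' * (L + 1) * A ^ j = (L + 1) * (C' * A ^ j) := by ring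
    have h10 : C' * A ^ (j + 1) = A * (C' * A ^ j) := by
      rw [pow_succ]
      ring
    rw [h9, h10]
    exact mul_le_mul_of_nonneg_right hLA (mul_nonneg hC'.le hAj)
  have h9 : ∑ τ ∈ T, X Q (S τ (j + 1)) ≤ C * N * (C' * A ^ (j + 1)) := by
    rw [h4, ← h5]
    exact h6.trans (mul_le_mul_of_nonneg_left (h7.trans h8) hCN)
  have h10 : (17 : ℝ) ^ (j + 1) * ∑ τ ∈ T, X Q (S τ (j + 1)) ≤
      17 ^ (j + 1) * (C * N * (C' * A ^ (j + 1))) :=
    mul_le_mul_of_nonneg_left h9 (by positivity)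
  have h11 : N ≤ N * A ^ (j + 1) := le_mul_of_one_le_right hN0 (one_le_pow₀ hA1)
  rw [← hA]
  have h12 : (17 ^ (j + 1) * C * C' + 2) * N * A ^ (j + 1) =
      17 ^ (j + 1) * (C * N * (C' * A ^ (j + 1))) + 2 * (N * A ^ (j + 1)) := by
    ring
  rw [h12]
  linarith

theorem ENT (acp : ACP_stmt) (inq : INQ_stmt) (yng : YNG_stmt) (mai : MAI_stmt) (klq : KLQ_stmt) (loc : LOC_stmt) (sml : SML_stmt) : ENT_stmt := by
  intro j
  induction j with
  | zero => exact ⟨1, one_pos, ENT_base⟩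
  | succ j ih =>
    obtain ⟨C, hC, hC2⟩ := ih
    obtain ⟨C', hC', hsml⟩ := sml j
    exact ⟨17 ^ (j + 1) * C * C' + 2, by positivity,
      ENT_step acp inq yng mai klq loc j C C' hC hC' hC2 hsml⟩

end EN
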